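import Pool.Agent.H424R3.LN.Stmts

set_option autoImplicit false

open MeasureTheory Filter Set

namespace Pool.Agent.H419R3.LN

open Pool.Agent.H424R3.LN

theorem taskUniq : TaskUniq := by
  intro F hF hex l₁ l₂ _ _ h
  set C : Set (Set (ℕ → Finset ℕ)) :=
    {s | ∃ (n : ℕ) (A : ℕ → Finset ℕ), s = {S | ∀ v ∈ F n, S v = A v}} with hC
  have hmeas : ∀ (n : ℕ) (A : ℕ → Finset ℕ),
      MeasurableSet {S : ℕ → Finset ℕ | ∀ v ∈ F n, S v = A v} := by
    intro n A
    have e : {S : ℕ → Finset ℕ | ∀ v ∈ F n, S v = A v} =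
        ⋂ v ∈ F n, (fun S : ℕ → Finset ℕ => S v) ⁻¹' {A v} := by
      ext S
      simp
    rw [e]
    refine Finset.measurableSet_biInter _ ?_
    intro v _
    exact measurable_pi_apply v (MeasurableSpace.measurableSet_top)
  refine ext_of_generate_finite C ?_ ?_ ?_ ?_
  · apply le_antisymm
    · unfold MeasurableSpace.pi
      refine iSup_le ?_
      intro v
      rintro s ⟨B, -, rfl⟩
      obtain ⟨n, hn⟩ := hex v
      classical
      have e : (fun S : ℕ → Finset ℕ => S v) ⁻¹' B =
          ⋃ (a : {u // u ∈ F n} → Finset ℕ), ⋃ (_ : a ⟨v, hn⟩ ∈ B),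
            {S | ∀ w ∈ F n, S w = (fun u => if hu : u ∈ F n then a ⟨u, hu⟩ else ∅) w} := by
        ext S
        rw [mem_iUnion]
        constructor
        · intro hS
          refine ⟨fun u => S u, ?_⟩
          rw [mem_iUnion]
          refine ⟨hS, ?_⟩
          intro w hw
          simp only [dif_pos hw]
        · rintro ⟨a, ha⟩
          rw [mem_iUnion] at ha
          obtain ⟨ha, hSa⟩ := ha
          have h1 := hSa v hn
          simp only [dif_pos hn] at h1
          show S v ∈ B
          rw [h1]
          exact ha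
      have hgoal : MeasurableSet[MeasurableSpace.generateFrom C]
          ((fun S : ℕ → Finset ℕ => S v) ⁻¹' B) := by
        rw [e]
        refine MeasurableSet.iUnion fun a => MeasurableSet.iUnion fun _ => ?_
        exact MeasurableSpace.measurableSet_generateFrom ⟨n, _, rfl⟩
      exact hgoal
    · refine MeasurableSpace.generateFrom_le ?_
      rintro s ⟨n, A, rfl⟩
      exact hmeas n A
  · rintro s ⟨n, A, rfl⟩ t ⟨m, B, rfl⟩ ⟨S0, hS1, hS2⟩
    rcases le_total n m with hnm | hnm
    · refine ⟨m, B, ?_⟩
      ext S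
      constructor
      · exact fun hS => hS.2
      · intro hS
        refine ⟨?_, hS⟩
        intro v hv
        have hv' : v ∈ F m := hF hnm hv
        rw [hS v hv', ← hS2 v hv', hS1 v hv]
    · refine ⟨n, A, ?_⟩
      ext S
      constructor
      · exact fun hS => hS.1
      · intro hS
        refine ⟨hS, ?_⟩
        intro v hv
        have hv' : v ∈ F n := hF hnm hv
        rw [hS v hv', ← hS1 v hv', hS2 v hv]
  · rintro s ⟨n, A, rfl⟩
    exact h n A
  · rw [measure_univ, measure_univ]

end Pool.Agent.H419R3.LN
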